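import Mathlib

/-!
# Bessel's inequality on `(G × ℝ^r) / ⟨(ε_i, e_i)⟩` : tools
-/

set_option autoImplicit false

open Complex Filter Topology MeasureTheory

namespace Pool.Agent.Y287.HC

/-- the unit cube with lower corner `m` -/
def cube (r : ℕ) : Set (Fin r → ℝ) := Set.pi Set.univ fun _ => Set.Ico (0 : ℝ) 1

lemma measurableSet_cube (r : ℕ) : MeasurableSet (cube r) :=
  MeasurableSet.univ_pi fun _ => measurableSet_Ico

/-- splitting an integral over `ℝ^r` into unit cubes -/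
lemma lint_split {r : ℕ} (H : (Fin r → ℝ) → ENNReal) (hH : Measurable H) :
    ∫⁻ y, H y = ∑' m : Fin r → ℤ, ∫⁻ y in cube r, H (fun i => y i + m i) := by
  have h1 : ∀ y, H y = ∑' m : Fin r → ℤ, (cube r).indicator (fun _ => H y) (fun i => y i - m i) := by
    intro y
    rw [tsum_eq_single (fun i => ⌊y i⌋)]
    · rw [Set.indicator_of_mem]
      simp only [cube, Set.mem_pi, Set.mem_univ, Set.mem_Ico, forall_true_left]
      intro i
      exact ⟨by linarith [Int.floor_le (y i)], by linarith [Int.lt_floor_add_one (y i)]⟩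
    · intro m hm
      rw [Set.indicator_of_notMem]
      intro h
      apply hm
      funext i
      simp only [cube, Set.mem_pi, Set.mem_univ, Set.mem_Ico, forall_true_left] at h
      have := h i
      symm
      rw [Int.floor_eq_iff]
      constructor <;> linarith [this.1, this.2]
  calc ∫⁻ y, H y = ∫⁻ y, ∑' m : Fin r → ℤ, (cube r).indicator (fun _ => H y) (fun i => y i - m i) :=
        lintegral_congr h1
    _ = ∑' m : Fin r → ℤ, ∫⁻ y, (cube r).indicator (fun _ => H y) (fun i => y i - m i) := by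
        rw [lintegral_tsum]
        intro m
        apply Measurable.aemeasurable
        have : (fun y : Fin r → ℝ => (cube r).indicator (fun _ => H y) (fun i => y i - m i)) =
            ((fun (y : Fin r → ℝ) (i : Fin r) => y i - (m i : ℝ)) ⁻¹' (cube r)).indicator H := by
          funext y
          simp only [Set.indicator]
          rfl
        rw [this]
        exact hH.indicator ((measurable_pi_lambda _ fun i => (measurable_pi_apply i).sub_const _)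
          (measurableSet_cube r))
    _ = ∑' m : Fin r → ℤ, ∫⁻ y in cube r, H (fun i => y i + m i) := by
        congr 1
        funext m
        rw [← lintegral_indicator (measurableSet_cube r)]
        rw [← lintegral_add_right_eq_self _ (fun i => (m i : ℝ))]
        apply lintegral_congr
        intro y
        have e : (fun i => (y + fun i => (m i : ℝ)) i - (m i : ℝ)) = y := by
          funext i
          simp
        rw [e]
        rfl

/-- unfolding: the boxes `(γ x, y x + [-ρ, ρ]^r)` are disjoint modulo the lattice -/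
lemma unfold {r : ℕ} {G : Type} [CommGroup G] [Fintype G] (ε : Fin r → G) (ρ : ℝ)
    (F : G → (Fin r → ℝ) → ENNReal) (hF : ∀ a, Measurable (F a))
    (hinv : ∀ a y (m : Fin r → ℤ), F (a * ∏ i, ε i ^ m i) (fun i => y i + m i) = F a y)
    {X : Type} [Fintype X] (γ : X → G) (y : X → Fin r → ℝ)
    (hsep : ∀ x x', ∀ m : Fin r → ℤ, γ x * ∏ i, ε i ^ m i = γ x' →
      (∀ i, |y x i + m i - y x' i| ≤ 2 * ρ) → x = x' ∧ m = 0) :
    ∑ x, ∫⁻ z in {z | ∀ i, |y x i - z i| ≤ ρ}, F (γ x) z ≤ ∑ a, ∫⁻ z in cube r, F a z := by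
  have hB : ∀ x, MeasurableSet {z : Fin r → ℝ | ∀ i, |y x i - z i| ≤ ρ} := by
    intro x
    have : {z : Fin r → ℝ | ∀ i, |y x i - z i| ≤ ρ} = ⋂ i, {z : Fin r → ℝ | |y x i - z i| ≤ ρ} := by
      ext z; simp
    rw [this]
    refine MeasurableSet.iInter fun i => ?_
    apply IsClosed.measurableSet
    exact isClosed_le (by fun_prop) (by fun_prop)
  have h1 : ∀ x, ∫⁻ z in {z | ∀ i, |y x i - z i| ≤ ρ}, F (γ x) z =
      ∫⁻ z in cube r, ∑' m : Fin r → ℤ,
        {m : Fin r → ℤ | ∀ i, |y x i - (z i + m i)| ≤ ρ}.indicator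
          (fun m => F (γ x * (∏ i, ε i ^ m i)⁻¹) z) m := by
    intro x
    rw [← lintegral_indicator (hB x), lint_split _ ((hF _).indicator (hB x)), lintegral_tsum]
    · congr 1
      funext m
      apply lintegral_congr
      intro z
      have e1 : F (γ x) (fun i => z i + m i) = F (γ x * (∏ i, ε i ^ m i)⁻¹) z := by
        rw [← hinv _ z m, inv_mul_cancel_right]
      by_cases h : ∀ i, |y x i - (z i + m i)| ≤ ρ
      · rw [Set.indicator_of_mem (s := {z : Fin r → ℝ | ∀ i, |y x i - z i| ≤ ρ}) h,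
          Set.indicator_of_mem (s := {m : Fin r → ℤ | ∀ i, |y x i - (z i + m i)| ≤ ρ}) h, e1]
      · rw [Set.indicator_of_notMem (s := {z : Fin r → ℝ | ∀ i, |y x i - z i| ≤ ρ}) h,
          Set.indicator_of_notMem (s := {m : Fin r → ℤ | ∀ i, |y x i - (z i + m i)| ≤ ρ}) h]
    · intro m
      apply Measurable.aemeasurable
      have : (fun z : Fin r → ℝ => {m : Fin r → ℤ | ∀ i, |y x i - (z i + m i)| ≤ ρ}.indicator
          (fun m => F (γ x * (∏ i, ε i ^ m i)⁻¹) z) m) =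
          {z : Fin r → ℝ | ∀ i, |y x i - (z i + m i)| ≤ ρ}.indicator
            (F (γ x * (∏ i, ε i ^ m i)⁻¹)) := by
        funext z
        rfl
      rw [this]
      apply (hF _).indicator
      have : {z : Fin r → ℝ | ∀ i, |y x i - (z i + m i)| ≤ ρ} =
          ⋂ i, {z : Fin r → ℝ | |y x i - (z i + m i)| ≤ ρ} := by
        ext z; simp
      rw [this]
      refine MeasurableSet.iInter fun i => ?_
      apply IsClosed.measurableSet
      exact isClosed_le (by fun_prop) (by fun_prop)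
  have h2 : ∑ x, ∫⁻ z in {z | ∀ i, |y x i - z i| ≤ ρ}, F (γ x) z =
      ∫⁻ z in cube r, ∑ x, ∑' m : Fin r → ℤ,
        {m : Fin r → ℤ | ∀ i, |y x i - (z i + m i)| ≤ ρ}.indicator
          (fun m => F (γ x * (∏ i, ε i ^ m i)⁻¹) z) m := by
    rw [lintegral_finsetSum']
    · exact Finset.sum_congr rfl fun x _ => h1 x
    · intro x _
      apply Measurable.aemeasurable
      apply Measurable.tsum
      intro m
      have : (fun z : Fin r → ℝ => {m : Fin r → ℤ | ∀ i, |y x i - (z i + m i)| ≤ ρ}.indicator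
          (fun m => F (γ x * (∏ i, ε i ^ m i)⁻¹) z) m) =
          {z : Fin r → ℝ | ∀ i, |y x i - (z i + m i)| ≤ ρ}.indicator
            (F (γ x * (∏ i, ε i ^ m i)⁻¹)) := by
        funext z
        rfl
      rw [this]
      apply (hF _).indicator
      have : {z : Fin r → ℝ | ∀ i, |y x i - (z i + m i)| ≤ ρ} =
          ⋂ i, {z : Fin r → ℝ | |y x i - (z i + m i)| ≤ ρ} := by
        ext z; simp
      rw [this]
      refine MeasurableSet.iInter fun i => ?_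
      apply IsClosed.measurableSet
      exact isClosed_le (by fun_prop) (by fun_prop)
  rw [h2, ← lintegral_finsetSum' _ fun a _ => (hF a).aemeasurable]
  apply lintegral_mono
  intro z
  show ∑ x, ∑' m : Fin r → ℤ, {m : Fin r → ℤ | ∀ i, |y x i - (z i + m i)| ≤ ρ}.indicator
          (fun m => F (γ x * (∏ i, ε i ^ m i)⁻¹) z) m ≤ ∑ a, F a z
  set S : Set (X × (Fin r → ℤ)) := {q | ∀ i, |y q.1 i - (z i + q.2 i)| ≤ ρ} with hS
  have h3 : ∑ x, ∑' m : Fin r → ℤ, {m : Fin r → ℤ | ∀ i, |y x i - (z i + m i)| ≤ ρ}.indicator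
          (fun m => F (γ x * (∏ i, ε i ^ m i)⁻¹) z) m =
      ∑' q : S, F (γ q.1.1 * (∏ i, ε i ^ q.1.2 i)⁻¹) z := by
    rw [← tsum_fintype (L := SummationFilter.unconditional _), ← ENNReal.tsum_prod
      (f := fun x m => {m : Fin r → ℤ | ∀ i, |y x i - (z i + m i)| ≤ ρ}.indicator
          (fun m => F (γ x * (∏ i, ε i ^ m i)⁻¹) z) m)]
    rw [tsum_subtype S (fun q : X × (Fin r → ℤ) => F (γ q.1 * (∏ i, ε i ^ q.2 i)⁻¹) z)]
    rfl
  rw [h3, ← tsum_fintype (L := SummationFilter.unconditional _)]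
  refine ENNReal.tsum_comp_le_tsum_of_injective
    (f := fun q : S => γ q.1.1 * (∏ i, ε i ^ q.1.2 i)⁻¹) ?_ (fun a => F a z)
  rintro ⟨⟨x, m⟩, hq⟩ ⟨⟨x', m'⟩, hq'⟩ h
  simp only at h
  simp only [hS, Set.mem_ofPred_eq] at hq hq'
  have h4 : γ x * ∏ i, ε i ^ (m' i - m i) = γ x' := by
    have : ∏ i, ε i ^ (m' i - m i) = (∏ i, ε i ^ m i)⁻¹ * ∏ i, ε i ^ m' i := by
      rw [← Finset.prod_inv_distrib, ← Finset.prod_mul_distrib]
      refine Finset.prod_congr rfl fun i _ => ?_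
      rw [zpow_sub, mul_comm]
    rw [this, ← mul_assoc, h, inv_mul_cancel_right]
  have h5 := hsep x x' (fun i => m' i - m i) h4 (by
    intro i
    have a1 := abs_le.1 (hq i)
    have a2 := abs_le.1 (hq' i)
    push_cast
    rw [abs_le]
    constructor <;> linarith [a1.1, a1.2, a2.1, a2.2])
  have h6 : m = m' := by
    funext i
    have := congrFun h5.2 i
    simp only [Pi.zero_apply] at this
    omega
  simp only [Subtype.mk.injEq, Prod.mk.injEq]
  exact ⟨h5.1, h6⟩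

/-- the function `(a, y) ↦ χ(a) e(θ·y)` attached to `p = (χ, θ)` -/
noncomputable def Ec {r : ℕ} {G : Type} [CommGroup G] (p : (G →* ℂˣ) × (Fin r → ℝ)) (a : G)
    (y : Fin r → ℝ) : ℂ :=
  ((p.1 a : ℂˣ) : ℂ) * cexp (2 * Real.pi * I * ((∑ i, p.2 i * y i : ℝ) : ℂ))

lemma Ec_cont {r : ℕ} {G : Type} [CommGroup G] (p : (G →* ℂˣ) × (Fin r → ℝ)) (a : G) :
    Continuous (Ec p a) := by
  unfold Ec
  fun_prop

lemma Ec_inv {r : ℕ} {G : Type} [CommGroup G] (p : (G →* ℂˣ) × (Fin r → ℝ)) (ε : Fin r → G)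
    (hp : ∀ i, ((p.1 (ε i) : ℂˣ) : ℂ) * cexp (2 * Real.pi * I * (p.2 i : ℂ)) = 1)
    (a : G) (y : Fin r → ℝ) (m : Fin r → ℤ) :
    Ec p (a * ∏ i, ε i ^ m i) (fun i => y i + m i) = Ec p a y := by
  unfold Ec
  have e1 : ((p.1 (a * ∏ i, ε i ^ m i) : ℂˣ) : ℂ) =
      ((p.1 a : ℂˣ) : ℂ) * ∏ i, ((p.1 (ε i) : ℂˣ) : ℂ) ^ m i := by
    rw [map_mul, map_prod, Units.val_mul, Units.coe_prod]
    simp only [map_zpow, Units.val_zpow_eq_zpow_val]
  have e2 : cexp (2 * Real.pi * I * ((∑ i, p.2 i * (y i + m i) : ℝ) : ℂ)) =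
      cexp (2 * Real.pi * I * ((∑ i, p.2 i * y i : ℝ) : ℂ)) *
        ∏ i, cexp (2 * Real.pi * I * (p.2 i : ℂ)) ^ m i := by
    have : ∏ i, cexp (2 * Real.pi * I * (p.2 i : ℂ)) ^ m i =
        cexp (2 * Real.pi * I * ((∑ i, p.2 i * m i : ℝ) : ℂ)) := by
      simp only [← Complex.exp_int_mul, ← Complex.exp_sum]
      congr 1
      push_cast
      rw [Finset.mul_sum]
      exact Finset.sum_congr rfl fun i _ => by ring
    rw [this, ← Complex.exp_add]
    congr 1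
    rw [← mul_add, ← Complex.ofReal_add, ← Finset.sum_add_distrib]
    simp only [mul_add]
  rw [e1, e2]
  have e3 : (∏ i, ((p.1 (ε i) : ℂˣ) : ℂ) ^ m i) * ∏ i, cexp (2 * Real.pi * I * (p.2 i : ℂ)) ^ m i =
      1 := by
    rw [← Finset.prod_mul_distrib]
    apply Finset.prod_eq_one
    intro i _
    rw [← mul_zpow, hp i, one_zpow]
  linear_combination (((p.1 a : ℂˣ) : ℂ) *
    cexp (2 * Real.pi * I * ((∑ i, p.2 i * y i : ℝ) : ℂ))) * e3

lemma norm_chi {G : Type} [CommGroup G] [Fintype G] (χ : G →* ℂˣ) (a : G) :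
    ‖((χ a : ℂˣ) : ℂ)‖ = 1 := by
  apply Complex.norm_eq_one_of_pow_eq_one (n := Fintype.card G) _ Fintype.card_ne_zero
  rw [← Units.val_pow_eq_pow_val, ← map_pow, pow_card_eq_one, map_one, Units.val_one]

lemma norm_Ec {r : ℕ} {G : Type} [CommGroup G] [Fintype G] (p : (G →* ℂˣ) × (Fin r → ℝ)) (a : G)
    (y : Fin r → ℝ) : ‖Ec p a y‖ = 1 := by
  unfold Ec
  rw [norm_mul, norm_chi, one_mul]
  rw [show 2 * (Real.pi : ℂ) * I * ((∑ i, p.2 i * y i : ℝ) : ℂ) =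
    ((2 * Real.pi * ∑ i, p.2 i * y i : ℝ) : ℂ) * I by push_cast; ring]
  exact Complex.norm_exp_ofReal_mul_I _

lemma Ec_conj {r : ℕ} {G : Type} [CommGroup G] [Fintype G] (p q : (G →* ℂˣ) × (Fin r → ℝ)) (a : G)
    (y : Fin r → ℝ) : Ec p a y * (starRingEnd ℂ) (Ec q a y) =
      ((((Units.coeHom ℂ).comp (p.1 / q.1)) a : ℂ)) *
        ∏ i, cexp (2 * Real.pi * I * ((p.2 i - q.2 i : ℝ) : ℂ) * (y i : ℂ)) := by
  rw [← Complex.inv_eq_conj (norm_Ec q a y)]
  unfold Ec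
  have e1 : (((Units.coeHom ℂ).comp (p.1 / q.1)) a : ℂ) =
      ((p.1 a : ℂˣ) : ℂ) * (((q.1 a : ℂˣ) : ℂ))⁻¹ := by
    simp [div_eq_mul_inv]
  rw [e1, mul_inv, ← Complex.exp_neg, ← Complex.exp_sum]
  have e2 : cexp (2 * Real.pi * I * ((∑ i, p.2 i * y i : ℝ) : ℂ)) *
      cexp (-(2 * Real.pi * I * ((∑ i, q.2 i * y i : ℝ) : ℂ))) =
      cexp (∑ i, 2 * Real.pi * I * ((p.2 i - q.2 i : ℝ) : ℂ) * (y i : ℂ)) := by
    rw [← Complex.exp_add]
    congr 1
    push_cast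
    rw [Finset.mul_sum, Finset.mul_sum, ← sub_eq_add_neg, ← Finset.sum_sub_distrib]
    exact Finset.sum_congr rfl fun i _ => by ring
  rw [← e2]
  ring

lemma cube_int {r : ℕ} (f : Fin r → ℝ → ℂ) :
    ∫ y in cube r, ∏ i, f i (y i) = ∏ i, ∫ t in Set.Ico (0 : ℝ) 1, f i t := by
  rw [← integral_indicator (measurableSet_cube r)]
  have : (cube r).indicator (fun y : Fin r → ℝ => ∏ i, f i (y i)) =
      fun y => ∏ i, (Set.Ico (0 : ℝ) 1).indicator (f i) (y i) := by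
    funext y
    by_cases h : y ∈ cube r
    · rw [Set.indicator_of_mem h]
      refine Finset.prod_congr rfl fun i _ => ?_
      rw [Set.indicator_of_mem]
      exact h i (Set.mem_univ i)
    · rw [Set.indicator_of_notMem h]
      simp only [cube, Set.mem_pi, Set.mem_univ, forall_true_left, not_forall] at h
      obtain ⟨i, hi⟩ := h
      symm
      apply Finset.prod_eq_zero (Finset.mem_univ i)
      rw [Set.indicator_of_notMem hi]
  rw [this, integral_fintype_prod_volume_eq_prod]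
  refine Finset.prod_congr rfl fun i _ => ?_
  rw [integral_indicator measurableSet_Ico]

lemma int_zero (x : ℝ) (hx : x ≠ 0) (h : cexp (2 * Real.pi * I * (x : ℂ)) = 1) :
    ∫ t in Set.Ico (0 : ℝ) 1, cexp (2 * Real.pi * I * (x : ℂ) * (t : ℂ)) = 0 := by
  have hc : 2 * (Real.pi : ℂ) * I * (x : ℂ) ≠ 0 := by
    simp [hx, Real.pi_ne_zero]
  rw [integral_Ico_eq_integral_Ioc, ← intervalIntegral.integral_of_le zero_le_one,
    integral_exp_mul_complex hc]
  simp [h]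

lemma ortho {r : ℕ} {G : Type} [CommGroup G] [Fintype G] (ε : Fin r → G)
    (p q : (G →* ℂˣ) × (Fin r → ℝ))
    (hp : ∀ i, ((p.1 (ε i) : ℂˣ) : ℂ) * cexp (2 * Real.pi * I * (p.2 i : ℂ)) = 1)
    (hq : ∀ i, ((q.1 (ε i) : ℂˣ) : ℂ) * cexp (2 * Real.pi * I * (q.2 i : ℂ)) = 1) (hpq : p ≠ q) :
    ∑ a, ∫ y in cube r, Ec p a y * (starRingEnd ℂ) (Ec q a y) = 0 := by
  simp only [Ec_conj]
  simp only [integral_const_mul, ← Finset.sum_mul]
  by_cases h : p.1 = q.1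
  · have h2 : p.2 ≠ q.2 := fun h' => hpq (Prod.ext h h')
    obtain ⟨j, hj⟩ := Function.ne_iff.1 h2
    apply mul_eq_zero_of_right
    rw [cube_int (fun i t => cexp (2 * Real.pi * I * ((p.2 i - q.2 i : ℝ) : ℂ) * (t : ℂ)))]
    apply Finset.prod_eq_zero (Finset.mem_univ j)
    apply int_zero _ (sub_ne_zero.2 hj)
    have h3 := hp j
    have h4 := hq j
    rw [h] at h3
    have h5 : ((q.1 (ε j) : ℂˣ) : ℂ) ≠ 0 := Units.ne_zero _
    have h6 : cexp (2 * Real.pi * I * (p.2 j : ℂ)) = cexp (2 * Real.pi * I * (q.2 j : ℂ)) :=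
      mul_left_cancel₀ h5 (h3.trans h4.symm)
    push_cast
    rw [mul_sub, Complex.exp_sub, h6, div_self (Complex.exp_ne_zero _)]
  · apply mul_eq_zero_of_left
    apply sum_hom_units_eq_zero
    intro h'
    apply h
    ext a
    have := DFunLike.congr_fun h' a
    simp only [MonoidHom.coe_comp, Function.comp_apply, MonoidHom.div_apply, Units.coeHom_apply,
      MonoidHom.one_apply, Units.val_eq_one, div_eq_one] at this
    rw [this]

lemma ortho_self {r : ℕ} {G : Type} [CommGroup G] [Fintype G] (p : (G →* ℂˣ) × (Fin r → ℝ)) :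
    ∑ a, ∫ y in cube r, Ec p a y * (starRingEnd ℂ) (Ec p a y) = (Fintype.card G : ℂ) := by
  have : ∀ a : G, ∫ y in cube r, Ec p a y * (starRingEnd ℂ) (Ec p a y) = 1 := by
    intro a
    have h : ∀ y, Ec p a y * (starRingEnd ℂ) (Ec p a y) = 1 := by
      intro y
      rw [Complex.mul_conj, Complex.normSq_eq_norm_sq, norm_Ec]
      simp
    simp only [h]
    rw [setIntegral_const]
    simp [cube, Measure.real, Real.volume_pi_Ico]
  simp only [this]
  simp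

lemma intOn_cube {r : ℕ} {E : Type} [NormedAddCommGroup E] (f : (Fin r → ℝ) → E)
    (hf : Continuous f) : IntegrableOn f (cube r) := by
  apply (hf.locallyIntegrable.integrableOn_isCompact
    (isCompact_univ_pi fun _ : Fin r => isCompact_Icc (a := (0 : ℝ)) (b := 1))).mono_set
  exact Set.pi_mono fun _ _ => Set.Ico_subset_Icc_self

/-- Parseval on the cube -/
lemma parseval {r : ℕ} {G : Type} [CommGroup G] [Fintype G] (ε : Fin r → G)
    (P : Finset ((G →* ℂˣ) × (Fin r → ℝ)))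
    (hP : ∀ p ∈ P, ∀ i, ((p.1 (ε i) : ℂˣ) : ℂ) * cexp (2 * Real.pi * I * (p.2 i : ℂ)) = 1)
    (b : (G →* ℂˣ) × (Fin r → ℝ) → ℂ) :
    ∑ a, ∫ y in cube r, ‖∑ p ∈ P, b p * Ec p a y‖ ^ 2 = Fintype.card G * ∑ p ∈ P, ‖b p‖ ^ 2 := by
  have h1 : ∀ (a : G) (y : Fin r → ℝ), ((‖∑ p ∈ P, b p * Ec p a y‖ ^ 2 : ℝ) : ℂ) =
      ∑ p ∈ P, ∑ q ∈ P, b p * (starRingEnd ℂ) (b q) * (Ec p a y * (starRingEnd ℂ) (Ec q a y)) := by
    intro a y
    rw [← Complex.normSq_eq_norm_sq, ← Complex.mul_conj, map_sum, Finset.sum_mul_sum]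
    refine Finset.sum_congr rfl fun p _ => Finset.sum_congr rfl fun q _ => ?_
    rw [map_mul]
    ring
  have hint : ∀ (a : G) (p q : (G →* ℂˣ) × (Fin r → ℝ)),
      Integrable (fun y => b p * (starRingEnd ℂ) (b q) *
        (Ec p a y * (starRingEnd ℂ) (Ec q a y))) (volume.restrict (cube r)) := by
    intro a p q
    apply intOn_cube
    have := Ec_cont p a
    have := Ec_cont q a
    fun_prop
  have h2 : ((∑ a, ∫ y in cube r, ‖∑ p ∈ P, b p * Ec p a y‖ ^ 2 : ℝ) : ℂ) =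
      ((Fintype.card G * ∑ p ∈ P, ‖b p‖ ^ 2 : ℝ) : ℂ) := by
    rw [Complex.ofReal_sum]
    have h3 : ∀ a : G, ((∫ y in cube r, ‖∑ p ∈ P, b p * Ec p a y‖ ^ 2 : ℝ) : ℂ) =
        ∑ p ∈ P, ∑ q ∈ P, b p * (starRingEnd ℂ) (b q) *
          ∫ y in cube r, (Ec p a y * (starRingEnd ℂ) (Ec q a y)) := by
      intro a
      rw [← integral_complex_ofReal]
      rw [show (fun y => ((‖∑ p ∈ P, b p * Ec p a y‖ ^ 2 : ℝ) : ℂ)) = fun y =>
        ∑ p ∈ P, ∑ q ∈ P, b p * (starRingEnd ℂ) (b q) * (Ec p a y * (starRingEnd ℂ) (Ec q a y)) from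
        funext (h1 a)]
      rw [integral_finsetSum _ fun p _ => integrable_finsetSum _ fun q _ => hint a p q]
      refine Finset.sum_congr rfl fun p _ => ?_
      rw [integral_finsetSum _ fun q _ => hint a p q]
      refine Finset.sum_congr rfl fun q _ => ?_
      rw [integral_const_mul]
    rw [Finset.sum_congr rfl fun a _ => h3 a]
    rw [Finset.sum_comm]
    push_cast
    rw [Finset.mul_sum]
    refine Finset.sum_congr rfl fun p hp => ?_
    rw [Finset.sum_comm]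
    rw [Finset.sum_eq_single p]
    · rw [← Finset.mul_sum, ortho_self, Complex.mul_conj, Complex.normSq_eq_norm_sq]
      push_cast
      ring
    · intro q hq hqp
      rw [← Finset.mul_sum, ortho ε p q (hP p hp) (hP q hq) (Ne.symm hqp), mul_zero]
    · intro h
      exact absurd hp h
  exact_mod_cast h2

/-- Cauchy-Schwarz in the form needed -/
lemma cs_box {r : ℕ} (g : (Fin r → ℝ) → ℂ) (hg : Continuous g) (ρ : ℝ)
    (hg0 : ∀ z, (∃ i, ρ < |z i|) → g z = 0) (Φ : (Fin r → ℝ) → ℂ) (hΦ : Continuous Φ)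
    (y : Fin r → ℝ) :
    ‖∫ z, g z * Φ (y - z)‖ₑ ^ 2 ≤
      (∫⁻ z, ‖g z‖ₑ ^ 2) * ∫⁻ z in {z : Fin r → ℝ | ∀ i, |y i - z i| ≤ ρ}, ‖Φ z‖ₑ ^ 2 := by
  set B : Set (Fin r → ℝ) := {z : Fin r → ℝ | ∀ i, |y i - z i| ≤ ρ} with hBdef
  have hB : MeasurableSet B := by
    have : B = ⋂ i, {z : Fin r → ℝ | |y i - z i| ≤ ρ} := by
      ext z; simp [hBdef]
    rw [this]
    refine MeasurableSet.iInter fun i => ?_
    apply IsClosed.measurableSet
    exact isClosed_le (by fun_prop) (by fun_prop)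
  have h1 : ‖∫ z, g z * Φ (y - z)‖ₑ ≤ ∫⁻ z, ‖g z‖ₑ * (B.indicator (fun z => ‖Φ z‖ₑ)) (y - z) := by
    refine (enorm_integral_le_lintegral_enorm _).trans (lintegral_mono fun z => ?_)
    show ‖g z * Φ (y - z)‖ₑ ≤ ‖g z‖ₑ * (B.indicator (fun z => ‖Φ z‖ₑ)) (y - z)
    by_cases h : y - z ∈ B
    · rw [Set.indicator_of_mem h, enorm_mul]
    · have : g z = 0 := by
        apply hg0
        simp only [hBdef, Set.mem_ofPred_eq, Pi.sub_apply, sub_sub_cancel, not_forall, not_le] at h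
        exact h
      rw [this]
      simp
  have hm1 : Measurable fun z => ‖g z‖ₑ := hg.enorm.measurable
  have hm2 : Measurable (B.indicator (fun z => ‖Φ z‖ₑ)) := hΦ.enorm.measurable.indicator hB
  have hm3 : Measurable fun z => (B.indicator (fun z => ‖Φ z‖ₑ)) (y - z) :=
    hm2.comp (measurable_const.sub measurable_id)
  have h2 := ENNReal.lintegral_mul_le_Lp_mul_Lq (μ := volume) Real.HolderConjugate.two_two
    hm1.aemeasurable hm3.aemeasurable
  have h3 : ∫⁻ z, ((B.indicator (fun z => ‖Φ z‖ₑ)) (y - z)) ^ (2 : ℝ) = ∫⁻ z in B, ‖Φ z‖ₑ ^ 2 := by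
    rw [lintegral_sub_left_eq_self (fun z => ((B.indicator (fun z => ‖Φ z‖ₑ)) z) ^ (2 : ℝ)) y,
      ← lintegral_indicator hB]
    apply lintegral_congr
    intro z
    by_cases h : z ∈ B
    · rw [Set.indicator_of_mem h, Set.indicator_of_mem h]
      exact_mod_cast rfl
    · rw [Set.indicator_of_notMem h, Set.indicator_of_notMem h]
      simp
  have h4 : ∫⁻ z, ‖g z‖ₑ ^ (2 : ℝ) = ∫⁻ z, ‖g z‖ₑ ^ 2 := by
    apply lintegral_congr
    intro z
    exact_mod_cast rfl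
  rw [h3, h4] at h2
  have h5 : ∀ u : ENNReal, (u ^ (1 / (2 : ℝ))) ^ 2 = u := by
    intro u
    rw [← ENNReal.rpow_natCast, ← ENNReal.rpow_mul]
    norm_num
  calc ‖∫ z, g z * Φ (y - z)‖ₑ ^ 2 ≤
      ((∫⁻ z, ‖g z‖ₑ ^ 2) ^ (1 / (2 : ℝ)) * (∫⁻ z in B, ‖Φ z‖ₑ ^ 2) ^ (1 / (2 : ℝ))) ^ 2 :=
        pow_le_pow_left₀ zero_le (h1.trans h2) 2
    _ = _ := by rw [mul_pow, h5, h5]

lemma hcs {r : ℕ} (g : (Fin r → ℝ) → ℂ) (ρ : ℝ) (hg0 : ∀ z, (∃ i, ρ < |z i|) → g z = 0) :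
    HasCompactSupport g := by
  apply HasCompactSupport.intro (K := Set.pi Set.univ fun _ : Fin r => Set.Icc (-ρ) ρ)
    (isCompact_univ_pi fun _ => isCompact_Icc)
  intro z hz
  apply hg0
  simp only [Set.mem_pi, Set.mem_univ, forall_true_left, not_forall] at hz
  obtain ⟨i, hi⟩ := hz
  refine ⟨i, ?_⟩
  by_contra h
  exact hi (abs_le.1 (not_lt.1 h))

/-- the Fourier transform -/
noncomputable def gh {r : ℕ} (g : (Fin r → ℝ) → ℂ) (θ : Fin r → ℝ) : ℂ :=
  ∫ z : Fin r → ℝ, g z * cexp (-(2 * Real.pi * I * ((∑ i, θ i * z i : ℝ) : ℂ)))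

lemma conv_eq {r : ℕ} {G : Type} [CommGroup G] (g : (Fin r → ℝ) → ℂ) (hg : Continuous g)
    (hgc : HasCompactSupport g) (P : Finset ((G →* ℂˣ) × (Fin r → ℝ)))
    (b : (G →* ℂˣ) × (Fin r → ℝ) → ℂ) (a : G) (y : Fin r → ℝ) :
    ∫ z, g z * ∑ p ∈ P, b p * Ec p a (y - z) = ∑ p ∈ P, b p * (gh g p.2 * Ec p a y) := by
  have h1 : ∀ z, g z * ∑ p ∈ P, b p * Ec p a (y - z) =
      ∑ p ∈ P, (b p * Ec p a y) *
        (g z * cexp (-(2 * Real.pi * I * ((∑ i, p.2 i * z i : ℝ) : ℂ)))) := by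
    intro z
    rw [Finset.mul_sum]
    refine Finset.sum_congr rfl fun p _ => ?_
    have : Ec p a (y - z) = Ec p a y * cexp (-(2 * Real.pi * I * ((∑ i, p.2 i * z i : ℝ) : ℂ))) := by
      unfold Ec
      rw [mul_assoc (((p.1 a : ℂˣ) : ℂ)), ← Complex.exp_add]
      congr 2
      rw [← sub_eq_add_neg, ← mul_sub, ← Complex.ofReal_sub, ← Finset.sum_sub_distrib]
      simp only [Pi.sub_apply, mul_sub]
    rw [this]
    ring
  simp only [h1]
  rw [integral_finsetSum]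
  · refine Finset.sum_congr rfl fun p _ => ?_
    rw [integral_const_mul]
    unfold gh
    ring
  · intro p _
    apply Integrable.const_mul
    apply Continuous.integrable_of_hasCompactSupport
    · fun_prop
    · exact hgc.mul_right

lemma dual {r : ℕ} {G : Type} [CommGroup G] [Fintype G] (ε : Fin r → G) (ρ : ℝ)
    (g : (Fin r → ℝ) → ℂ) (hg : Continuous g) (hg0 : ∀ z, (∃ i, ρ < |z i|) → g z = 0)
    {X : Type} [Fintype X] (γ : X → G) (y : X → Fin r → ℝ)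
    (hsep : ∀ x x', ∀ m : Fin r → ℤ, γ x * ∏ i, ε i ^ m i = γ x' →
      (∀ i, |y x i + m i - y x' i| ≤ 2 * ρ) → x = x' ∧ m = 0)
    (P : Finset ((G →* ℂˣ) × (Fin r → ℝ)))
    (hP : ∀ p ∈ P, ∀ i, ((p.1 (ε i) : ℂˣ) : ℂ) * cexp (2 * Real.pi * I * (p.2 i : ℂ)) = 1)
    (b : (G →* ℂˣ) × (Fin r → ℝ) → ℂ) :
    ∑ x, ‖∑ p ∈ P, b p * (gh g p.2 * Ec p (γ x) (y x))‖ ^ 2 ≤
      Fintype.card G * (∫ z : Fin r → ℝ, ‖g z‖ ^ 2) * ∑ p ∈ P, ‖b p‖ ^ 2 := by
  have hgc := hcs g ρ hg0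
  set Φ : G → (Fin r → ℝ) → ℂ := fun a y => ∑ p ∈ P, b p * Ec p a y with hΦ
  have hΦc : ∀ a, Continuous (Φ a) := by
    intro a
    have : ∀ p, Continuous (Ec (r := r) p a) := fun p => Ec_cont p a
    simp only [hΦ]
    fun_prop
  have hinv : ∀ a y (m : Fin r → ℤ),
      ‖Φ (a * ∏ i, ε i ^ m i) (fun i => y i + m i)‖ₑ ^ 2 = ‖Φ a y‖ₑ ^ 2 := by
    intro a y m
    congr 2
    simp only [hΦ]
    refine Finset.sum_congr rfl fun p hp => ?_
    rw [Ec_inv p ε (hP p hp)]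
  have h1 := unfold ε ρ (fun a z => ‖Φ a z‖ₑ ^ 2) (fun a => (hΦc a).enorm.measurable.pow_const 2)
    hinv γ y hsep
  have e1 : ∀ u : ℂ, ‖u‖ₑ ^ 2 = ENNReal.ofReal (‖u‖ ^ 2) := by
    intro u
    rw [← ofReal_norm, ENNReal.ofReal_pow (norm_nonneg _)]
  have h2 : ∑ a, ∫⁻ z in cube r, ‖Φ a z‖ₑ ^ 2 =
      ENNReal.ofReal (Fintype.card G * ∑ p ∈ P, ‖b p‖ ^ 2) := by
    rw [← parseval ε P hP b, ENNReal.ofReal_sum_of_nonneg fun a _ =>
      integral_nonneg fun z => by positivity]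
    refine Finset.sum_congr rfl fun a _ => ?_
    have hi : Integrable (fun y => ‖Φ a y‖ ^ 2) (volume.restrict (cube r)) :=
      intOn_cube _ (((hΦc a).norm).pow 2)
    have := ofReal_integral_eq_lintegral_ofReal hi (ae_of_all _ fun z => by positivity)
    simp only [e1]
    exact this.symm
  have h3 : ∫⁻ z, ‖g z‖ₑ ^ 2 = ENNReal.ofReal (∫ z : Fin r → ℝ, ‖g z‖ ^ 2) := by
    rw [ofReal_integral_eq_lintegral_ofReal _ (ae_of_all _ fun z => by positivity)]
    · simp only [e1]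
    · apply Continuous.integrable_of_hasCompactSupport
      · fun_prop
      · exact hgc.comp_left (g := fun u : ℂ => ‖u‖ ^ 2) (by simp)
  have h4 : ENNReal.ofReal (∑ x, ‖∑ p ∈ P, b p * (gh g p.2 * Ec p (γ x) (y x))‖ ^ 2) ≤
      ENNReal.ofReal ((∫ z : Fin r → ℝ, ‖g z‖ ^ 2) * (Fintype.card G * ∑ p ∈ P, ‖b p‖ ^ 2)) := by
    rw [ENNReal.ofReal_sum_of_nonneg fun x _ => by positivity,
      ENNReal.ofReal_mul (integral_nonneg fun z => by positivity), ← h2, ← h3]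
    refine le_trans ?_ (mul_le_mul_right h1 _)
    rw [Finset.mul_sum]
    refine Finset.sum_le_sum fun x _ => ?_
    rw [← e1, ← conv_eq g hg hgc P b (γ x) (y x)]
    exact cs_box g hg ρ hg0 (Φ (γ x)) (hΦc _) (y x)
  have h5 := (ENNReal.ofReal_le_ofReal_iff (by
    have : 0 ≤ ∫ z : Fin r → ℝ, ‖g z‖ ^ 2 := integral_nonneg fun z => by positivity
    positivity)).1 h4
  linarith

/-- **Bessel's inequality**, for a finite type of points -/
theorem bes {r : ℕ} {G : Type} [CommGroup G] [Fintype G] (ε : Fin r → G) (ρ : ℝ)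
    (g : (Fin r → ℝ) → ℂ) (hg : Continuous g) (hg0 : ∀ z, (∃ i, ρ < |z i|) → g z = 0)
    {X : Type} [Fintype X] (γ : X → G) (y : X → Fin r → ℝ)
    (hsep : ∀ x x', ∀ m : Fin r → ℤ, γ x * ∏ i, ε i ^ m i = γ x' →
      (∀ i, |y x i + m i - y x' i| ≤ 2 * ρ) → x = x' ∧ m = 0)
    (P : Finset ((G →* ℂˣ) × (Fin r → ℝ)))
    (hP : ∀ p ∈ P, ∀ i, ((p.1 (ε i) : ℂˣ) : ℂ) * cexp (2 * Real.pi * I * (p.2 i : ℂ)) = 1)
    (c : X → ℂ) :
    ∑ p ∈ P, ‖gh g p.2‖ ^ 2 * ‖∑ x, c x * Ec p (γ x) (y x)‖ ^ 2 ≤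
      Fintype.card G * (∫ z : Fin r → ℝ, ‖g z‖ ^ 2) * ∑ x, ‖c x‖ ^ 2 := by
  set D : ℝ := Fintype.card G * (∫ z : Fin r → ℝ, ‖g z‖ ^ 2) with hD
  have hD0 : 0 ≤ D := by
    have : 0 ≤ ∫ z : Fin r → ℝ, ‖g z‖ ^ 2 := integral_nonneg fun z => by positivity
    positivity
  set w : (G →* ℂˣ) × (Fin r → ℝ) → ℂ := fun p => gh g p.2 * ∑ x, c x * Ec p (γ x) (y x) with hw
  set T : ℝ := ∑ p ∈ P, ‖gh g p.2‖ ^ 2 * ‖∑ x, c x * Ec p (γ x) (y x)‖ ^ 2 with hT
  set C : ℝ := ∑ x, ‖c x‖ ^ 2 with hC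
  have hT0 : 0 ≤ T := Finset.sum_nonneg fun p _ => by positivity
  have hC0 : 0 ≤ C := Finset.sum_nonneg fun p _ => by positivity
  have hTw : T = ∑ p ∈ P, ‖w p‖ ^ 2 := by
    simp only [hT, hw, norm_mul, mul_pow]
  have h1 : (T : ℂ) = ∑ x, c x * ∑ p ∈ P, (starRingEnd ℂ) (w p) *
      (gh g p.2 * Ec p (γ x) (y x)) := by
    rw [hTw]
    push_cast
    simp only [Finset.mul_sum]
    rw [Finset.sum_comm]
    refine Finset.sum_congr rfl fun p _ => ?_
    rw [← Complex.ofReal_pow, ← Complex.normSq_eq_norm_sq, ← Complex.mul_conj]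
    have : w p * (starRingEnd ℂ) (w p) =
        (gh g p.2 * ∑ x, c x * Ec p (γ x) (y x)) * (starRingEnd ℂ) (w p) := rfl
    rw [this, Finset.mul_sum, Finset.sum_mul]
    exact Finset.sum_congr rfl fun x _ => by ring
  have h2 : T ^ 2 ≤ C * ∑ x, ‖∑ p ∈ P, (starRingEnd ℂ) (w p) *
      (gh g p.2 * Ec p (γ x) (y x))‖ ^ 2 := by
    have h3 : T ≤ ∑ x, ‖c x‖ * ‖∑ p ∈ P, (starRingEnd ℂ) (w p) *
        (gh g p.2 * Ec p (γ x) (y x))‖ := by
      have : T = ‖(T : ℂ)‖ := by rw [Complex.norm_real, Real.norm_of_nonneg hT0]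
      rw [this, h1]
      refine (norm_sum_le _ _).trans (le_of_eq ?_)
      simp only [norm_mul]
    exact (pow_le_pow_left₀ hT0 h3 2).trans (Finset.sum_mul_sq_le_sq_mul_sq _ _ _)
  have h3 := dual ε ρ g hg hg0 γ y hsep P hP (fun p => (starRingEnd ℂ) (w p))
  simp only [RCLike.norm_conj] at h3
  rw [← hTw, ← hD] at h3
  have h4 : T ^ 2 ≤ C * (D * T) := h2.trans (mul_le_mul_of_nonneg_left h3 hC0)
  rcases hT0.eq_or_lt with h | h
  · rw [← h]
    positivity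
  · nlinarith

end Pool.Agent.Y287.HC
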