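import Pool.Agent.Y767.HC.Stm
import Pool.Agent.Y287.HC.Bes

/-!
# Bessel's inequality on `(G × ℝ^r) / ⟨(ε_i, e_i)⟩`
-/

set_option autoImplicit false

open Complex Filter Topology MeasureTheory

namespace Pool.Agent.Y287.HC

theorem t_bes : Pool.Agent.Y767.StBes := by
  intro r G _ _ ε ρ g hg hg0 X s γ y hsep P hP c
  have h := bes ε ρ g hg hg0 (X := s) (fun x => γ x.1) (fun x => y x.1)
    (by
      intro x x' m h1 h2
      have := hsep x.1 x.2 x'.1 x'.2 m h1 h2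
      exact ⟨Subtype.ext this.1, this.2⟩) P hP (fun x => c x.1)
  have e1 : ∀ f : X → ℂ, ∑ x : s, f x.1 = ∑ x ∈ s, f x := fun f => Finset.sum_coe_sort s f
  have e2 : ∑ x : s, ‖c x.1‖ ^ 2 = ∑ x ∈ s, ‖c x‖ ^ 2 :=
    Finset.sum_coe_sort s (fun x => ‖c x‖ ^ 2)
  rw [e2] at h
  refine le_trans (le_of_eq ?_) h
  refine Finset.sum_congr rfl fun p _ => ?_
  rw [e1 (fun x => c x * Ec p (γ x) (y x))]
  unfold gh Ec
  simp only [mul_assoc]

end Pool.Agent.Y287.HC
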